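import Mathlib
import Pool.Agent.R103.Pattern
import Pool.Agent.R103.Layer

/-!
Balanced patterns forcing superpolynomially small density in the middle layer: for every
exponent `k` there is a balanced pattern, of the form `(plus, minus, minus, plus) repeated`, such that
`δ(n, n/2, P) ≤ n^(-k)` for infinitely many even `n`.
-/

namespace Pool.Agent.Results.MP_9357f2_co.Superpoly

open Finset Filter Pool.Agent.R103.Pattern Pool.Agent.R103.Layer

lemma balanced_pat (d : ℕ) (hd : 0 < d) : Balanced (pat (2 * d)) := by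
  refine ⟨by omega, ?_⟩
  let σ : Fin (2 * d) → Fin (2 * d) := fun i =>
    if h : (i : ℕ) % 2 = 0 then ⟨(i : ℕ) + 1, by have := i.2; omega⟩
    else ⟨(i : ℕ) - 1, by have := i.2; omega⟩
  have hσ0 : ∀ i : Fin (2 * d), (i : ℕ) % 2 = 0 → (σ i : ℕ) = (i : ℕ) + 1 := by
    intro i hi
    simp only [σ]
    rw [dif_pos hi]
  have hσ1 : ∀ i : Fin (2 * d), ¬ (i : ℕ) % 2 = 0 → (σ i : ℕ) = (i : ℕ) - 1 := by
    intro i hi
    simp only [σ]
    rw [dif_neg hi]
  have hσσ : ∀ i, σ (σ i) = i := by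
    intro i
    apply Fin.ext
    by_cases h : (i : ℕ) % 2 = 0
    · have h1 := hσ0 i h
      rw [hσ1 (σ i) (by omega)]
      omega
    · have h1 := hσ1 i h
      rw [hσ0 (σ i) (by omega)]
      omega
  have hpt : ∀ i, pat (2 * d) i = true → pat (2 * d) (σ i) = false := by
    intro i hi
    unfold pat at hi ⊢
    rw [decide_eq_true_iff] at hi
    rw [decide_eq_false_iff_not]
    by_cases h : (i : ℕ) % 2 = 0
    · have h1 := hσ0 i h
      omega
    · have h1 := hσ1 i h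
      omega
  have hpf : ∀ i, pat (2 * d) i = false → pat (2 * d) (σ i) = true := by
    intro i hi
    unfold pat at hi ⊢
    rw [decide_eq_false_iff_not] at hi
    rw [decide_eq_true_iff]
    by_cases h : (i : ℕ) % 2 = 0
    · have h1 := hσ0 i h
      omega
    · have h1 := hσ1 i h
      omega
  apply Finset.card_bij' (fun i _ => σ i) (fun i _ => σ i)
  · intro i hi
    rw [Finset.mem_filter] at hi ⊢
    exact ⟨Finset.mem_univ _, hpt i hi.2⟩
  · intro i hi
    rw [Finset.mem_filter] at hi ⊢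
    exact ⟨Finset.mem_univ _, hpf i hi.2⟩
  · intro i _
    exact hσσ i
  · intro i _
    exact hσσ i

lemma maxFree_spec (n k : ℕ) {t : ℕ} (P : Fin t → Bool) :
    ∃ 𝒜 : Finset (Finset (Fin n)), (∀ A ∈ 𝒜, A.card = k) ∧ PatternFree P 𝒜 ∧
      𝒜.card = maxFree n k P := by
  have h := Nat.sSup_mem (s := {m | ∃ 𝒜 : Finset (Finset (Fin n)), (∀ A ∈ 𝒜, A.card = k) ∧
    PatternFree P 𝒜 ∧ 𝒜.card = m}) ⟨0, ∅, by simp, by intro A hA; simp at hA, by simp⟩
    ⟨Fintype.card (Finset (Fin n)), by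
      rintro m ⟨𝒜, _, _, rfl⟩
      exact Finset.card_le_univ 𝒜⟩
  exact h

lemma key (k N : ℕ) : ∃ n : ℕ, N < n ∧ Even n ∧ ∃ (t : ℕ) (P : Fin t → Bool), Balanced P ∧
    density n (n / 2) P ≤ (n : ℝ) ^ (-(k : ℝ)) := by
  obtain ⟨D, d, K, hD, hd, _, hlay⟩ := layer (2 * k)
  obtain ⟨B, hB⟩ : ∃ B, B = N + K * (4 * D) ^ k + 1 := ⟨_, rfl⟩
  have hBpos : 0 < B := by omega
  have hBB : B ≤ B * B := Nat.le_mul_self B
  have hnN : N < 4 * D * (B * B) := by
    have h1 : B * B ≤ 4 * D * (B * B) := Nat.le_mul_of_pos_left _ (by omega)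
    omega
  have hhalf : 4 * D * (B * B) / 2 = 2 * D * (B * B) := by
    have : 4 * D * (B * B) = 2 * (2 * D * (B * B)) := by ring
    omega
  refine ⟨4 * D * (B * B), hnN, ⟨2 * D * (B * B), by ring⟩, 2 * d, pat (2 * d),
    balanced_pat d hd, ?_⟩
  obtain ⟨𝒜, hA, hfree, hcard⟩ := maxFree_spec (4 * D * (B * B)) (4 * D * (B * B) / 2)
    (pat (2 * d))
  rw [hhalf] at hA
  have h1 := hlay B hBpos 𝒜 hA hfree
  rw [hcard] at h1
  set m := maxFree (4 * D * (B * B)) (4 * D * (B * B) / 2) (pat (2 * d)) with hm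
  have h2 : m * (4 * D * (B * B)) ^ k ≤ (4 * D * (B * B)).choose (2 * D * (B * B)) := by
    apply le_of_mul_le_mul_right _ hBpos
    calc m * (4 * D * (B * B)) ^ k * B = (4 * D) ^ k * (m * B ^ (2 * k + 1)) := by
          rw [mul_pow, ← pow_two, ← pow_mul, pow_succ]; ring
      _ ≤ (4 * D) ^ k * (K * (4 * D * (B * B)).choose (2 * D * (B * B))) :=
          Nat.mul_le_mul_left _ h1
      _ = K * (4 * D) ^ k * (4 * D * (B * B)).choose (2 * D * (B * B)) := by ring
      _ ≤ B * (4 * D * (B * B)).choose (2 * D * (B * B)) := Nat.mul_le_mul_right _ (by omega)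
      _ = _ := by ring
  have hn0 : (0 : ℝ) < ((4 * D * (B * B) : ℕ) : ℝ) := by
    have : 0 < 4 * D * (B * B) := by omega
    exact_mod_cast this
  have hc0 : (0 : ℝ) < (((4 * D * (B * B)).choose (2 * D * (B * B)) : ℕ) : ℝ) := by
    have : 0 < (4 * D * (B * B)).choose (2 * D * (B * B)) := by
      apply Nat.choose_pos
      apply Nat.mul_le_mul_right
      omega
    exact_mod_cast this
  unfold density
  rw [Real.rpow_neg hn0.le, Real.rpow_natCast, ← hm, hhalf, div_le_iff₀ hc0, inv_mul_eq_div,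
    le_div_iff₀ (by positivity)]
  exact_mod_cast h2

/-- There are even integers `n_0 < n_1 < ...`, balanced patterns `P_k` and `g(k) → ∞` such that
`δ(n_k, n_k / 2, P_k) ≤ n_k ^ (-g(k))` for all `k`. -/
theorem result : ∃ (n t : ℕ → ℕ) (P : ∀ k, Fin (t k) → Bool) (g : ℕ → ℝ),
    StrictMono n ∧ (∀ k, Even (n k)) ∧ (∀ k, Balanced (P k)) ∧ Tendsto g atTop atTop ∧
      ∀ k, density (n k) (n k / 2) (P k) ≤ (n k : ℝ) ^ (-(g k)) := by
  choose F hF using key
  obtain ⟨s, hs0, hs1⟩ : ∃ s : ℕ → ℕ, s 0 = F 0 0 ∧ ∀ k, s (k + 1) = F (k + 1) (s k) :=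
    ⟨fun k => Nat.rec (F 0 0) (fun k x => F (k + 1) x) k, rfl, fun _ => rfl⟩
  have hsF : ∀ k, ∃ N, s k = F k N := by
    intro k
    cases k with
    | zero => exact ⟨0, hs0⟩
    | succ k => exact ⟨s k, hs1 k⟩
  have hspec : ∀ k, Even (s k) ∧ ∃ (t : ℕ) (P : Fin t → Bool), Balanced P ∧
      density (s k) (s k / 2) P ≤ ((s k : ℕ) : ℝ) ^ (-(k : ℝ)) := by
    intro k
    obtain ⟨N, hN⟩ := hsF k
    rw [hN]
    exact (hF k N).2
  choose hev t P hbal hdens using hspec
  refine ⟨s, t, P, fun k => (k : ℝ), ?_, hev, hbal, tendsto_natCast_atTop_atTop, hdens⟩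
  apply strictMono_nat_of_lt_succ
  intro k
  rw [hs1]
  exact (hF (k + 1) (s k)).1

end Pool.Agent.Results.MP_9357f2_co.Superpoly
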